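import Pool.Agent.H37.CE.Fin

/-!
# THEOREM CCB with commensurators

The commensurability classes of the subgroups of `G` form an ordered set `CC G` with a least element (the class of the finite groups), on
which `G` acts by conjugation; the stabiliser of the class of `B` is the commensurator of `B`. So `median_main3` gives: `G` is in the class
if vertex stabilisers and the commensurators of the infinite subgroups which fix two distant vertices are.
-/

set_option autoImplicit false

namespace Pool.Agent.H8.CB

open Pool.Agent.H98.FJ Pool.Agent.H76.GT Pool.Agent.H37.MG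
open scoped Pointwise

/-- subgroups, preordered by virtual inclusion -/
structure VS (G : Type) [Group G] where
  /-- the subgroup -/
  s : Subgroup G

section

variable {G : Type} [Group G]

instance : Preorder (VS G) where
  le A B := B.s.relIndex A.s ≠ 0
  le_refl A := by
    rw [Subgroup.relIndex_self]
    exact one_ne_zero
  le_trans A B C h1 h2 := Subgroup.relIndex_ne_zero_trans h2 h1

theorem vs_le {A B : VS G} : A ≤ B ↔ B.s.relIndex A.s ≠ 0 := Iff.rfl

instance : MulAction G (VS G) where
  smul g A := ⟨MulAut.conj g • A.s⟩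
  one_smul A := by
    show (⟨MulAut.conj (1 : G) • A.s⟩ : VS G) = A
    rw [map_one, one_smul]
  mul_smul g h A := by
    show (⟨MulAut.conj (g * h) • A.s⟩ : VS G) = ⟨MulAut.conj g • (MulAut.conj h • A.s)⟩
    rw [map_mul, mul_smul]

theorem smul_s (g : G) (A : VS G) : (g • A).s = MulAut.conj g • A.s := rfl

theorem smul_mono (g : G) {A B : VS G} (h : A ≤ B) : g • A ≤ g • B := by
  rw [vs_le] at h ⊢
  rw [smul_s, smul_s, Subgroup.relIndex_pointwise_smul]
  exact h

/-- the commensurability classes -/
abbrev CC (G : Type) [Group G] : Type := Antisymmetrization (VS G) (· ≤ ·)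

/-- the class of a subgroup -/
def cls (B : Subgroup G) : CC G := toAntisymmetrization (· ≤ ·) ⟨B⟩

theorem cls_le {A B : Subgroup G} : cls A ≤ cls B ↔ B.relIndex A ≠ 0 :=
  toAntisymmetrization_le_toAntisymmetrization_iff

theorem cls_eq {A B : Subgroup G} : cls A = cls B ↔ Subgroup.Commensurable A B := by
  rw [le_antisymm_iff, cls_le, cls_le]
  exact and_comm

instance : MulAction G (CC G) where
  smul g := Quotient.map (g • ·) fun _ _ h => ⟨smul_mono g h.1, smul_mono g h.2⟩
  one_smul := by
    rintro ⟨A⟩
    show toAntisymmetrization (· ≤ ·) ((1 : G) • A) = toAntisymmetrization (· ≤ ·) A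
    rw [one_smul]
  mul_smul g h := by
    rintro ⟨A⟩
    show toAntisymmetrization (· ≤ ·) ((g * h) • A) = toAntisymmetrization (· ≤ ·) (g • (h • A))
    rw [mul_smul]

theorem smul_cls (g : G) (B : Subgroup G) : g • cls B = cls (MulAut.conj g • B) := rfl

theorem conj_eq (g : G) (B : Subgroup G) : ConjAct.toConjAct g • B = MulAut.conj g • B := rfl

theorem stab_cls (B : Subgroup G) :
    MulAction.stabilizer G (cls B) = Subgroup.Commensurable.commensurator B := by
  ext g
  rw [MulAction.mem_stabilizer_iff, Subgroup.Commensurable.commensurator_mem_iff, smul_cls, cls_eq, conj_eq]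

theorem bot_le_cls (i : CC G) : cls (⊥ : Subgroup G) ≤ i := by
  induction i using Antisymmetrization.ind with
  | _ A =>
    show cls (⊥ : Subgroup G) ≤ cls A.s
    rw [cls_le, Subgroup.relIndex_bot_right]
    exact one_ne_zero

theorem cls_bot {B : Subgroup G} : cls B = cls ⊥ ↔ (B : Set G).Finite := by
  rw [cls_eq]
  constructor
  · rintro ⟨-, h⟩
    rw [Subgroup.relIndex_bot_left] at h
    have : Finite B := Nat.finite_of_card_ne_zero h
    exact Set.toFinite _
  · intro h
    have : Finite B := h
    refine ⟨?_, ?_⟩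
    · rw [Subgroup.relIndex_bot_right]
      exact one_ne_zero
    · rw [Subgroup.relIndex_bot_left]
      exact Nat.card_pos.ne'

end

section

variable {G V : Type} [Group G] [MulAction G V] {X : SimpleGraph V}

theorem clo_cls {k N m : ℕ} (hN : ∀ B : Subgroup G, FM X k B → (B : Set G).Finite → (B : Set G).encard ≤ N)
    (hm : ∀ B : ℕ → Subgroup G, (∀ i, FM X k (B i)) → (∀ i, B i ≤ B (i + 1)) → (B 0 : Set G).Infinite →
      ∃ i < m, (B i).relIndex (B (i + 1)) ≠ 0) : Clo X k N m (cls (⊥ : Subgroup G)) cls where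
  bot := bot_le_cls
  mono := by
    intro B B' _ _ h
    rw [cls_le, Subgroup.relIndex_eq_one.2 h]
    exact one_ne_zero
  equi := fun g B _ => rfl
  fin := by
    intro B B' _ h h1
    rw [cls_eq]
    refine ⟨h1, ?_⟩
    rw [Subgroup.relIndex_eq_one.2 h]
    exact one_ne_zero
  chain := by
    intro B h1 h2 h3
    have h4 : (B 0 : Set G).Infinite := fun h => h3 (cls_bot.2 h)
    obtain ⟨i, hi, h5⟩ := hm B h1 h2 h4
    refine ⟨i, hi, ?_⟩
    rw [cls_eq]
    refine ⟨h5, ?_⟩
    rw [Subgroup.relIndex_eq_one.2 (h2 i)]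
    exact one_ne_zero
  small := fun B h1 h2 => hN B h1 (cls_bot.1 h2)

end

/-- **THEOREM CCB**, commensurator form -/
theorem median_com {C : (G : Type) → [Group G] → Prop} (hC : Inherits C) (hT : Transfer C) (G : Type) [Group G]
    (h : ∀ K : Subgroup G, K.FG → ∃ (V : Type) (_ : MulAction K V) (X : SimpleGraph V) (n k N m : ℕ), Median X ∧
      (∀ (g : K) (a b : V), X.Adj a b → X.Adj (g • a) (g • b)) ∧ (∀ f, ¬ IsCube X (n + 1) f) ∧
      (∀ v : V, C (MulAction.stabilizer K v)) ∧
      (∀ B : Subgroup K, FM X k B → (B : Set K).Finite → (B : Set K).encard ≤ N) ∧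
      (∀ B : Subgroup K, FM X k B → (B : Set K).Infinite → C (Subgroup.Commensurable.commensurator B)) ∧
      ∀ B : ℕ → Subgroup K, (∀ i, FM X k (B i)) → (∀ i, B i ≤ B (i + 1)) → (B 0 : Set K).Infinite →
        ∃ i < m, (B i).relIndex (B (i + 1)) ≠ 0) : C G := by
  refine Pool.Agent.H37.CE.median_main3 hC hT G fun K hK => ?_
  obtain ⟨V, a, X, n, k, N, m, h1, h2, h3, h4, h5, h6, h7⟩ := h K hK
  refine ⟨V, a, X, n, CC K, inferInstance, inferInstance, k, N, m, cls ⊥, cls, h1, h2, h3, h4, clo_cls h5 h7, fun B hB hb => ?_⟩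
  have h8 : (B : Set K).Infinite := fun h => hb (cls_bot.2 h)
  rw [stab_cls]
  exact h6 B hB h8

end Pool.Agent.H8.CB
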